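import Mathlib

set_option autoImplicit false
open scoped Pointwise

namespace Pool.Agent.Helper8.NubChar

variable {G : Type} [Group G] [TopologicalSpace G]

/-- `U` is tidy for `a`: `U = U₊ U₋` and `U₊₊` is closed. -/
def Tidy (a : MulAut G) (U : Subgroup G) : Prop :=
  (U : Set G) =
      (⋂ n : ℕ, Set.image (⇑(a ^ n)) (U : Set G)) *
        (⋂ n : ℕ, Set.image (⇑(a⁻¹ ^ n)) (U : Set G)) ∧
    IsClosed (⋃ m : ℕ, Set.image (⇑(a ^ m))
        (⋂ n : ℕ, Set.image (⇑(a ^ n)) (U : Set G)))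

/-- The nub of an automorphism. -/
def nub (a : MulAut G) : Set G :=
  ⋂ (U : Subgroup G) (_ : IsCompact (U : Set G) ∧ IsOpen (U : Set G) ∧ Tidy a U), (U : Set G)

/-- The nub of a flat group of automorphisms. -/
def flatNub (H : Subgroup (MulAut G)) : Set G :=
  ⋂ (U : Subgroup G) (_ : IsCompact (U : Set G) ∧ IsOpen (U : Set G) ∧ ∀ a ∈ H, Tidy a U),
    (U : Set G)

end Pool.Agent.Helper8.NubChar
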