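import Mathlib
import Pool.Agent.Helper8.NubDefs

set_option autoImplicit false
set_option linter.unusedSectionVars false
set_option linter.style.haveILetI false
open scoped Pointwise

namespace Pool.Agent.Helper8.NubChar

variable {G : Type} [Group G] [TopologicalSpace G]

theorem coe_smul' (a : MulAut G) (U : Subgroup G) :
    ((a • U : Subgroup G) : Set G) = Set.image (⇑a) (U : Set G) := rfl

theorem mem_smul' (a : MulAut G) (U : Subgroup G) (g : G) :
    g ∈ a • U ↔ a⁻¹ g ∈ U := by
  rw [Subgroup.mem_pointwise_smul_iff_inv_smul_mem]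
  rfl

theorem smul_iInf' {ι : Sort*} (a : MulAut G) (U : ι → Subgroup G) :
    a • (⨅ i, U i) = ⨅ i, a • U i := by
  ext g
  rw [mem_smul', Subgroup.mem_iInf, Subgroup.mem_iInf]
  exact forall_congr' (fun i => (mem_smul' a (U i) g).symm)

theorem smul_mono' (a : MulAut G) {U V : Subgroup G} (h : U ≤ V) : a • U ≤ a • V := by
  intro g hg
  rw [mem_smul'] at hg ⊢
  exact h hg

theorem inv_fixed {a : MulAut G} {U : Subgroup G} (h : a • U = U) : a⁻¹ • U = U := by
  rw [inv_smul_eq_iff, h]

theorem pow_fixed {a : MulAut G} {U : Subgroup G} (h : a • U = U) (n : ℕ) : a ^ n • U = U := by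
  induction n with
  | zero => simp
  | succ n ih => rw [pow_succ, mul_smul, h, ih]

theorem isOpen_smul {a : MulAut G} (ha' : Continuous ⇑(a⁻¹)) {U : Subgroup G}
    (hU : IsOpen (U : Set G)) : IsOpen ((a • U : Subgroup G) : Set G) := by
  have : ((a • U : Subgroup G) : Set G) = (⇑(a⁻¹)) ⁻¹' (U : Set G) := by
    ext g
    exact mem_smul' a U g
  rw [this]
  exact hU.preimage ha'

section compact

variable [IsTopologicalGroup G] [CompactSpace G]

/-- An invariant open subgroup is tidy. -/
theorem tidy_of_fixed {a : MulAut G} {U : Subgroup G} (hU : IsOpen (U : Set G))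
    (h : a • U = U) : Tidy a U := by
  have h1 : ∀ n : ℕ, Set.image (⇑(a ^ n)) (U : Set G) = U := fun n => by
    rw [← coe_smul', pow_fixed h]
  have h2 : ∀ n : ℕ, Set.image (⇑(a⁻¹ ^ n)) (U : Set G) = U := fun n => by
    rw [← coe_smul', pow_fixed (inv_fixed h)]
  unfold Tidy
  simp only [h1, h2, Set.iInter_const, Set.iUnion_const]
  exact ⟨by simp, Subgroup.isClosed_of_isOpen _ hU⟩

/-- In a compact group an open subgroup cannot be mapped properly into itself. -/
theorem fixed_of_smul_le {a : MulAut G} {U : Subgroup G} (hU : IsOpen (U : Set G))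
    (h : a • U ≤ U) : a • U = U := by
  have hfin : U.FiniteIndex := by
    haveI := Subgroup.quotient_finite_of_isOpen U hU
    exact Subgroup.finiteIndex_of_finite_quotient
  have hidx : (a • U).index = U.index := Subgroup.index_map_equiv U a
  have h3 := Subgroup.relIndex_mul_index h
  rw [hidx] at h3
  have h4 : (a • U).relIndex U = 1 := by
    have hne : U.index ≠ 0 := hfin.index_ne_zero
    have : (a • U).relIndex U * U.index = 1 * U.index := by rw [h3, one_mul]
    exact Nat.eq_of_mul_eq_mul_right (Nat.pos_of_ne_zero hne) this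
  exact le_antisymm h (Subgroup.relIndex_eq_one.mp h4)

/-- In a compact totally disconnected group tidy subgroups are exactly the invariant ones. -/
theorem fixed_of_tidy [T2Space G] {a : MulAut G} (ha : Continuous ⇑a) (ha' : Continuous ⇑(a⁻¹))
    {U : Subgroup G} (hU : IsOpen (U : Set G)) (h : Tidy a U) : a • U = U := by
  obtain ⟨h1, h2⟩ := h
  -- continuity of powers
  have hcont : ∀ n : ℕ, Continuous ⇑(a ^ n) := by
    intro n
    induction n with
    | zero => simpa using continuous_id
    | succ n ih =>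
      have : ⇑(a ^ (n + 1)) = ⇑(a ^ n) ∘ ⇑a := by
        ext g; rw [pow_succ]; rfl
      rw [this]
      exact ih.comp ha
  have hcont' : ∀ n : ℕ, Continuous ⇑((a ^ n)⁻¹) := by
    intro n
    induction n with
    | zero => simpa using continuous_id
    | succ n ih =>
      have : ⇑((a ^ (n + 1))⁻¹) = ⇑((a ^ n)⁻¹) ∘ ⇑(a⁻¹) := by
        ext g; rw [pow_succ', mul_inv_rev]; rfl
      rw [this]
      exact ih.comp ha'
  set Up : Subgroup G := ⨅ n : ℕ, a ^ n • U with hUp
  set Um : Subgroup G := ⨅ n : ℕ, a⁻¹ ^ n • U with hUm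
  have hUpc : (⋂ n : ℕ, Set.image (⇑(a ^ n)) (U : Set G)) = (Up : Set G) := by
    rw [hUp, Subgroup.coe_iInf]; rfl
  have hUmc : (⋂ n : ℕ, Set.image (⇑(a⁻¹ ^ n)) (U : Set G)) = (Um : Set G) := by
    rw [hUm, Subgroup.coe_iInf]; rfl
  rw [hUpc] at h2
  rw [hUpc, hUmc] at h1
  -- `a` expands `Up`
  have hexp : Up ≤ a • Up := by
    rw [hUp, smul_iInf']
    refine le_iInf (fun n => ?_)
    rw [smul_smul, ← pow_succ']
    exact iInf_le _ (n + 1)
  have hmono : Monotone (fun m : ℕ => a ^ m • Up) := by
    apply monotone_nat_of_le_succ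
    intro m
    show a ^ m • Up ≤ a ^ (m + 1) • Up
    rw [pow_succ, mul_smul]
    exact smul_mono' _ hexp
  have hUpclosed : IsClosed (Up : Set G) := by
    rw [hUp, Subgroup.coe_iInf]
    exact isClosed_iInter (fun n =>
      Subgroup.isClosed_of_isOpen _ (isOpen_smul (hcont' n) hU))
  have hclosed : ∀ m : ℕ, IsClosed ((a ^ m • Up : Subgroup G) : Set G) := by
    intro m
    have : ((a ^ m • Up : Subgroup G) : Set G) = (⇑((a ^ m)⁻¹)) ⁻¹' (Up : Set G) := by
      ext g
      exact mem_smul' _ Up g
    rw [this]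
    exact hUpclosed.preimage (hcont' m)
  set W : Subgroup G := ⨆ m : ℕ, a ^ m • Up with hW
  have hWc : (W : Set G) = ⋃ m : ℕ, ((a ^ m • Up : Subgroup G) : Set G) :=
    Subgroup.coe_iSup_of_directed hmono.directed_le
  have hWclosed : IsClosed (W : Set G) := by
    rw [hWc]
    exact h2
  haveI : CompactSpace W := isCompact_iff_compactSpace.mp hWclosed.isCompact
  let C : ℕ → Subgroup W := fun m => (a ^ m • Up).subgroupOf W
  have hCclosed : ∀ m, IsClosed (C m : Set W) := by
    intro m
    exact (hclosed m).preimage continuous_subtype_val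
  have hCun : (⋃ m, (C m : Set W)) = Set.univ := by
    rw [Set.eq_univ_iff_forall]
    rintro ⟨w, hw⟩
    have hw' : w ∈ (W : Set G) := hw
    rw [hWc] at hw'
    obtain ⟨m, hm⟩ := Set.mem_iUnion.mp hw'
    exact Set.mem_iUnion.mpr ⟨m, hm⟩
  obtain ⟨m0, hm0⟩ := nonempty_interior_of_iUnion_of_closed hCclosed hCun
  have hopen0 : IsOpen (C m0 : Set W) := by
    obtain ⟨w, hw⟩ := hm0
    exact Subgroup.isOpen_of_mem_nhds _ (mem_interior_iff_mem_nhds.mp hw)
  have hCmono : Monotone C := by
    intro m n hmn w hw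
    exact hmono hmn hw
  have hopen : ∀ m, IsOpen (C (m0 + m) : Set W) := fun m =>
    Subgroup.isOpen_mono (hCmono (Nat.le_add_right _ _)) hopen0
  obtain ⟨M, hM⟩ := isCompact_univ.elim_directed_cover (fun m => (C (m0 + m) : Set W)) hopen
    (by
      rintro w -
      have hw := Set.mem_univ w
      rw [← hCun] at hw
      obtain ⟨m, hm⟩ := Set.mem_iUnion.mp hw
      exact Set.mem_iUnion.mpr ⟨m, hCmono (Nat.le_add_left _ _) hm⟩)
    (by
      apply Monotone.directed_le
      intro m n hmn w hw
      exact hCmono (Nat.add_le_add_left hmn _) hw)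
  have hWle : W ≤ a ^ (m0 + M) • Up := by
    intro w hw
    exact hM (Set.mem_univ (⟨w, hw⟩ : W))
  have hfix : a ^ (m0 + M + 1) • Up = a ^ (m0 + M) • Up := by
    apply le_antisymm
    · exact le_trans (le_iSup (fun m : ℕ => a ^ m • Up) (m0 + M + 1)) hWle
    · exact hmono (Nat.le_succ _)
  have hUpfix : a • Up = Up := by
    rw [pow_succ, mul_smul] at hfix
    exact MulAction.injective _ hfix
  -- hence `Up ≤ Um`
  have hle : Up ≤ Um := by
    rw [hUm]
    refine le_iInf (fun n => ?_)
    have h5 : a⁻¹ ^ n • Up = Up := pow_fixed (inv_fixed hUpfix) n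
    rw [← h5]
    apply smul_mono'
    have := iInf_le (fun n : ℕ => a ^ n • U) 0
    simpa using this
  have hUle : U ≤ Um := by
    intro g hg
    have hg' : g ∈ (U : Set G) := hg
    rw [h1] at hg'
    obtain ⟨u, hu, v, hv, rfl⟩ := hg'
    exact Um.mul_mem (hle hu) hv
  have h6 : U ≤ a⁻¹ • U := by
    refine le_trans hUle ?_
    have := iInf_le (fun n : ℕ => a⁻¹ ^ n • U) 1
    rw [pow_one] at this
    exact this
  have h7 : a • U ≤ U := by
    have := smul_mono' a h6
    rwa [smul_inv_smul] at this
  exact fixed_of_smul_le hU h7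

/-- The intersection of all open subgroups invariant under every member of `T`. -/
def core (T : Set (MulAut G)) : Subgroup G :=
  ⨅ (U : Subgroup G) (_ : IsOpen (U : Set G) ∧ ∀ a ∈ T, a • U = U), U

theorem mem_core {T : Set (MulAut G)} {g : G} :
    g ∈ core T ↔ ∀ U : Subgroup G, IsOpen (U : Set G) → (∀ a ∈ T, a • U = U) → g ∈ U := by
  simp only [core, Subgroup.mem_iInf, and_imp]

theorem core_anti {S T : Set (MulAut G)} (h : S ⊆ T) : core S ≤ core T := by
  intro g hg
  rw [mem_core] at hg ⊢
  intro U hU hT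
  exact hg U hU (fun a ha => hT a (h ha))

variable [T2Space G]

theorem nub_eq_core {a : MulAut G} (ha : Continuous ⇑a) (ha' : Continuous ⇑(a⁻¹)) :
    nub a = (core {a} : Set G) := by
  ext g
  simp only [nub, Set.mem_iInter, SetLike.mem_coe, mem_core, Set.mem_singleton_iff, forall_eq]
  constructor
  · intro h U hU hf
    exact h U ⟨(Subgroup.isClosed_of_isOpen _ hU).isCompact, hU, tidy_of_fixed hU hf⟩
  · rintro h U ⟨-, hU, ht⟩
    exact h U hU (fixed_of_tidy ha ha' hU ht)

theorem flatNub_eq_core {H : Subgroup (MulAut G)} (hH : ∀ a ∈ H, Continuous ⇑a) :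
    flatNub H = (core (H : Set (MulAut G)) : Set G) := by
  ext g
  simp only [flatNub, Set.mem_iInter, SetLike.mem_coe, mem_core]
  constructor
  · intro h U hU hf
    exact h U ⟨(Subgroup.isClosed_of_isOpen _ hU).isCompact, hU,
      fun a ha => tidy_of_fixed hU (hf a ha)⟩
  · rintro h U ⟨-, hU, ht⟩
    exact h U hU (fun a ha => fixed_of_tidy (hH a ha) (hH _ (H.inv_mem ha)) hU (ht a ha))

theorem core_isClosed (T : Set (MulAut G)) : IsClosed (core T : Set G) := by
  simp only [core, Subgroup.coe_iInf]
  exact isClosed_iInter (fun U => isClosed_iInter (fun h => Subgroup.isClosed_of_isOpen _ h.1))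

theorem smul_normalCore (a : MulAut G) {U : Subgroup G} (h : a • U = U) :
    a • U.normalCore = U.normalCore := by
  have key : ∀ b : MulAut G, b • U = U → b • U.normalCore ≤ U.normalCore := by
    intro b hb g hg
    rw [mem_smul'] at hg
    intro x
    have h1 := hg (b⁻¹ x)
    rw [← map_inv, ← map_mul, ← map_mul] at h1
    have h2 : x * g * x⁻¹ ∈ b • U := by
      rw [mem_smul']
      exact h1
    rwa [hb] at h2
  apply le_antisymm (key a h)
  have h3 := smul_mono' a (key a⁻¹ (inv_fixed h))
  rwa [smul_inv_smul] at h3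

theorem core_normal (T : Set (MulAut G)) : (core T).Normal := by
  constructor
  intro n hn g
  rw [mem_core] at hn ⊢
  intro U hU hT
  have hfin : U.FiniteIndex := by
    haveI := Subgroup.quotient_finite_of_isOpen U hU
    exact Subgroup.finiteIndex_of_finite_quotient
  have h1 : n ∈ U.normalCore := by
    apply hn
    · exact Subgroup.isOpen_of_isClosed_of_finiteIndex _
        (U.normalCore_isClosed (Subgroup.isClosed_of_isOpen _ hU))
    · intro a ha
      exact smul_normalCore a (hT a ha)
  exact h1 g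

/-- If the open subgroup `V` contains the nub of `a` then a positive power of `a` fixes `V`. -/
theorem exists_pow_fixed {a : MulAut G} {V : Subgroup G} (hV : IsOpen (V : Set G))
    (h : core {a} ≤ V) : ∃ n : ℕ, 0 < n ∧ a ^ n • V = V := by
  let F : {U : Subgroup G // IsOpen (U : Set G) ∧ a • U = U} → Set G := fun U => (U.1 : Set G)
  haveI : Nonempty {U : Subgroup G // IsOpen (U : Set G) ∧ a • U = U} :=
    ⟨⟨⊤, by simp, by ext g; simp [mem_smul']⟩⟩
  obtain ⟨⟨U, hU, hUf⟩, hUV⟩ := exists_subset_nhds_of_compactSpace (V := F) (U := (V : Set G))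
    (by
      rintro ⟨U, hU, hUf⟩ ⟨U', hU', hUf'⟩
      refine ⟨⟨U ⊓ U', ?_, ?_⟩, ?_, ?_⟩
      · rw [Subgroup.coe_inf]; exact hU.inter hU'
      · ext g
        have h1 := SetLike.ext_iff.mp hUf g
        have h2 := SetLike.ext_iff.mp hUf' g
        rw [mem_smul'] at h1 h2 ⊢
        rw [Subgroup.mem_inf, Subgroup.mem_inf, h1, h2]
      · exact fun g hg => hg.1
      · exact fun g hg => hg.2)
    (fun U => Subgroup.isClosed_of_isOpen _ U.2.1)
    (by
      intro x hx
      apply hV.mem_nhds
      apply h
      rw [mem_core]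
      intro U hU hT
      exact Set.mem_iInter.mp hx ⟨U, hU, hT a rfl⟩)
  have hUV' : U ≤ V := hUV
  haveI := Subgroup.quotient_finite_of_isOpen U hU
  obtain ⟨k, l, hkl, heq⟩ := Finite.exists_ne_map_eq_of_infinite
    (fun n : ℕ => (QuotientGroup.mk '' ((a ^ n • V : Subgroup G) : Set G) : Set (G ⧸ U)))
  have hle : ∀ n : ℕ, U ≤ a ^ n • V := fun n => by
    have := smul_mono' (a ^ n) hUV'
    rwa [pow_fixed hUf] at this
  have hinj : ∀ A B : Subgroup G, U ≤ A → U ≤ B →
      (QuotientGroup.mk '' (A : Set G) : Set (G ⧸ U)) = QuotientGroup.mk '' (B : Set G) →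
      A ≤ B := by
    intro A B _ hB h8 g hg
    have : (QuotientGroup.mk g : G ⧸ U) ∈ (QuotientGroup.mk '' (B : Set G) : Set (G ⧸ U)) := by
      rw [← h8]
      exact ⟨g, hg, rfl⟩
    obtain ⟨g', hg', h9⟩ := this
    have h10 := QuotientGroup.eq.mp h9
    have : g = g' * (g'⁻¹ * g) := by group
    rw [this]
    exact B.mul_mem hg' (hB h10)
  have hVV : a ^ k • V = a ^ l • V :=
    le_antisymm (hinj _ _ (hle k) (hle l) heq) (hinj _ _ (hle l) (hle k) heq.symm)
  rcases lt_or_gt_of_ne hkl with hlt | hlt
  · refine ⟨l - k, by omega, ?_⟩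
    have h11 : a ^ k • (a ^ (l - k) • V) = a ^ k • V := by
      rw [smul_smul, ← pow_add, Nat.add_sub_cancel' hlt.le, hVV]
    exact MulAction.injective _ h11
  · refine ⟨k - l, by omega, ?_⟩
    have h11 : a ^ l • (a ^ (k - l) • V) = a ^ l • V := by
      rw [smul_smul, ← pow_add, Nat.add_sub_cancel' hlt.le, hVV]
    exact MulAction.injective _ h11

/-- The list product of nubs of elements is the underlying set of a closed normal subgroup. -/
theorem list_prod_core (l : List (MulAut G)) :
    ∃ N : Subgroup G, N.Normal ∧ IsCompact (N : Set G) ∧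
      (l.map (fun a => (core {a} : Set G))).prod = (N : Set G) ∧
      (∀ a ∈ l, core {a} ≤ N) ∧ (∀ M : Subgroup G, (∀ a ∈ l, core {a} ≤ M) → N ≤ M) := by
  induction l with
  | nil =>
    refine ⟨⊥, inferInstance, by simp, by simp [Set.singleton_one], by simp, by simp⟩
  | cons a l ih =>
    obtain ⟨N, hN, hc, hp, hle, hmin⟩ := ih
    haveI := core_normal ({a} : Set (MulAut G))
    refine ⟨core {a} ⊔ N, Subgroup.sup_normal _ _, ?_, ?_, ?_, ?_⟩
    · rw [Subgroup.mul_normal]
      exact (core_isClosed _).isCompact.mul hc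
    · rw [List.map_cons, List.prod_cons, hp, Subgroup.mul_normal]
    · intro b hb
      rcases List.mem_cons.mp hb with rfl | hb
      · exact le_sup_left
      · exact le_trans (hle b hb) le_sup_right
    · intro M hM
      exact sup_le (hM a (by simp)) (hmin M (fun b hb => hM b (by simp [hb])))

/-- Sufficiency: a finite list of elements detecting finite index computes the nub. -/
theorem core_eq_of_detect [TotallyDisconnectedSpace G] {Γ : Type} [Group Γ] (φ : Γ →* MulAut G)
    (hφ : ∀ γ, Continuous ⇑(φ γ)) (l : List Γ)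
    (hl : ∀ K : Subgroup Γ, (∀ γ ∈ l, ∃ n : ℕ, 0 < n ∧ γ ^ n ∈ K) → K.FiniteIndex) :
    (core ((φ.range : Subgroup (MulAut G)) : Set (MulAut G)) : Set G) =
      ((l.map φ).map (fun a => (core {a} : Set G))).prod := by
  obtain ⟨N, hN, hc, hp, hle, hmin⟩ := list_prod_core (l.map φ)
  rw [hp]
  apply le_antisymm
  · -- the hard inclusion
    intro g hg
    let N' : ClosedSubgroup G := ⟨N, hc.isClosed⟩
    have hsInf := ProfiniteGrp.closedSubgroup_eq_sInf_open N'
    have : g ∈ sInf {M : Subgroup G | IsOpen (M : Set G) ∧ (N' : Subgroup G) ≤ M} := by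
      rw [Subgroup.mem_sInf]
      rintro V ⟨hV, hNV⟩
      -- the stabilizer of V has finite index
      let K : Subgroup Γ := (MulAction.stabilizer (MulAut G) V).comap φ
      have hK : K.FiniteIndex := by
        apply hl
        intro γ hγ
        obtain ⟨n, hn, hfix⟩ := exists_pow_fixed hV
          (le_trans (hle (φ γ) (List.mem_map_of_mem hγ)) hNV)
        refine ⟨n, hn, ?_⟩
        rw [Subgroup.mem_comap, MulAction.mem_stabilizer_iff, map_pow]
        exact hfix
      haveI : Finite (Γ ⧸ K) := Subgroup.finite_quotient_of_finiteIndex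
      -- the orbit of V is finite
      have horb : (Set.range (fun γ : Γ => φ γ • V)).Finite := by
        have : Set.range (fun γ : Γ => φ γ • V) ⊆
            Set.range (fun q : Γ ⧸ K => φ (Quotient.out q) • V) := by
          rintro _ ⟨γ, rfl⟩
          refine ⟨(QuotientGroup.mk γ : Γ ⧸ K), ?_⟩
          have h1 : (QuotientGroup.mk γ : Γ ⧸ K).out⁻¹ * γ ∈ K := by
            rw [← QuotientGroup.eq, QuotientGroup.out_eq']
          rw [Subgroup.mem_comap, MulAction.mem_stabilizer_iff, map_mul, map_inv, mul_smul,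
            inv_smul_eq_iff] at h1
          exact h1.symm
        exact (Set.finite_range _).subset this
      let W : Subgroup G := ⨅ γ : Γ, φ γ • V
      have hWopen : IsOpen (W : Set G) := by
        have : (W : Set G) = ⋂ S ∈ Set.range (fun γ : Γ => φ γ • V), (S : Set G) := by
          rw [Subgroup.coe_iInf]
          ext x
          simp
        rw [this]
        apply Set.Finite.isOpen_biInter horb
        rintro _ ⟨γ, rfl⟩
        refine isOpen_smul ?_ hV
        rw [← map_inv]
        exact hφ _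
      have hWfix : ∀ a ∈ ((φ.range : Subgroup (MulAut G)) : Set (MulAut G)), a • W = W := by
        rintro _ ⟨δ, rfl⟩
        show φ δ • (⨅ γ : Γ, φ γ • V) = ⨅ γ : Γ, φ γ • V
        rw [smul_iInf']
        simp only [smul_smul, ← map_mul]
        exact (Equiv.mulLeft δ).iInf_comp (g := fun γ => φ γ • V)
      have hgW : g ∈ W := (mem_core.mp hg) W hWopen hWfix
      have := (Subgroup.mem_iInf.mp hgW) 1
      simpa using this
    rw [← hsInf] at this
    exact this
  · have : N ≤ core ((φ.range : Subgroup (MulAut G)) : Set (MulAut G)) := by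
      apply hmin
      intro a ha
      obtain ⟨γ, -, rfl⟩ := List.mem_map.mp ha
      apply core_anti
      rintro _ rfl
      exact ⟨γ, rfl⟩
    exact this

end compact

end Pool.Agent.Helper8.NubChar
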