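import Mathlib

set_option autoImplicit false
open scoped Pointwise

namespace Pool.Agent.Helper8.NubCounter

/-- Index of a block: a number `j` and a vector `lam` of `j+1` rationals. -/
abbrev Idx : Type := Σ j : ℕ, (ZMod (j + 1) → ℚ)

/-- The set of coordinates: over each index a copy of `ZMod (j+1) × ℚ`. -/
abbrev X : Type := Σ i : Idx, ZMod (i.1 + 1) × ℚ

/-- The compact group: all functions from `X` to the group of order two. -/
abbrev G : Type := X → Multiplicative (ZMod 2)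

/-- Permutations of `X` act on `G`. -/
def Phi : Equiv.Perm X →* MulAut G where
  toFun s :=
    { toFun := fun g x => g (s⁻¹ x)
      invFun := fun g x => g (s x)
      left_inv := fun g => by ext x; simp
      right_inv := fun g => by ext x; simp
      map_mul' := fun g h => rfl }
  map_one' := by ext g x; rfl
  map_mul' := fun s t => by ext g x; simp [mul_inv_rev]

theorem Phi_apply (s : Equiv.Perm X) (g : G) (x : X) : Phi s g x = g (s⁻¹ x) := rfl

/-- The four involutions of `X`. -/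
def s1 : Equiv.Perm X :=
  Function.Involutive.toPerm (fun p => ⟨p.1, (-p.2.1, p.2.2)⟩) (by intro p; simp)

def s2 : Equiv.Perm X :=
  Function.Involutive.toPerm (fun p => ⟨p.1, (1 - p.2.1, p.2.2)⟩) (by intro p; simp)

def r : Equiv.Perm X :=
  Function.Involutive.toPerm (fun p => ⟨p.1, (p.2.1, -p.2.2)⟩) (by intro p; simp)

def b : Equiv.Perm X :=
  Function.Involutive.toPerm (fun p => ⟨p.1, (p.2.1, p.1.2 p.2.1 - p.2.2)⟩) (by intro p; simp)

theorem s1_apply (p : X) : s1 p = ⟨p.1, (-p.2.1, p.2.2)⟩ := rfl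
theorem s2_apply (p : X) : s2 p = ⟨p.1, (1 - p.2.1, p.2.2)⟩ := rfl
theorem r_apply (p : X) : r p = ⟨p.1, (p.2.1, -p.2.2)⟩ := rfl
theorem b_apply (p : X) : b p = ⟨p.1, (p.2.1, p.1.2 p.2.1 - p.2.2)⟩ := rfl

def gens : Set (Equiv.Perm X) := {s1, s2, r, b}

def P : Subgroup (Equiv.Perm X) := Subgroup.closure gens

def H : Subgroup (MulAut G) := P.map Phi

theorem gens_invol {s : Equiv.Perm X} (hs : s ∈ gens) : s * s = 1 := by
  rcases hs with rfl | rfl | rfl | rfl
  · ext1 p; simp [s1_apply]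
  · ext1 p; simp [s2_apply]
  · ext1 p; simp [r_apply]
  · ext1 p; simp [b_apply]

theorem H_fg : H.FG := by
  rw [Subgroup.fg_iff]
  refine ⟨Phi '' gens, ?_, ?_⟩
  · rw [H, P, MonoidHom.map_closure]
  · exact Set.Finite.image _ (by simp [gens])

/-- `s` acts on all blocks of index `j` by the same affine recipe. -/
def Aff (j : ℕ) (s : Equiv.Perm X) (q : Equiv.Perm (ZMod (j + 1))) (e : ℚ)
    (m : ZMod (j + 1) → ZMod (j + 1) → ℚ) : Prop :=
  ∀ (lam : ZMod (j + 1) → ℚ) (c : ZMod (j + 1)) (x : ℚ),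
    s ⟨⟨j, lam⟩, (c, x)⟩ = ⟨⟨j, lam⟩, (q c, e * x + ∑ d, m c d * lam d)⟩

theorem Aff.mul {j : ℕ} {s s' : Equiv.Perm X} {q q' : Equiv.Perm (ZMod (j + 1))} {e e' : ℚ}
    {m m' : ZMod (j + 1) → ZMod (j + 1) → ℚ} (h : Aff j s q e m) (h' : Aff j s' q' e' m') :
    Aff j (s * s') (q * q') (e * e') (fun c d => e * m' c d + m (q' c) d) := by
  intro lam c x
  rw [Equiv.Perm.mul_apply, h', h]
  congr 2
  simp only [add_mul, Finset.sum_add_distrib, mul_add, Finset.mul_sum, mul_assoc, add_assoc]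

theorem Aff.inv {j : ℕ} {s : Equiv.Perm X} {q : Equiv.Perm (ZMod (j + 1))} {e : ℚ}
    {m : ZMod (j + 1) → ZMod (j + 1) → ℚ} (h : Aff j s q e m) (he : e * e = 1) :
    Aff j s⁻¹ q⁻¹ e (fun c d => - e * m (q⁻¹ c) d) := by
  intro lam c x
  rw [Equiv.Perm.inv_eq_iff_eq, h]
  have h1 : ∑ d, -e * m (q⁻¹ c) d * lam d = - e * ∑ d, m (q⁻¹ c) d * lam d := by
    rw [Finset.mul_sum]
    exact Finset.sum_congr rfl (fun d _ => by ring)
  have h2 : e * (e * x + -e * ∑ d, m (q⁻¹ c) d * lam d) + ∑ d, m (q⁻¹ c) d * lam d = x := by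
    have : e * (e * x + -e * ∑ d, m (q⁻¹ c) d * lam d) + ∑ d, m (q⁻¹ c) d * lam d
        = (e * e) * x + (1 - e * e) * ∑ d, m (q⁻¹ c) d * lam d := by ring
    rw [this, he]; ring
  rw [h1, h2]
  simp

theorem Aff.one (j : ℕ) : Aff j 1 1 1 (fun _ _ => 0) := by
  intro lam c x
  simp

theorem aff_of_mem (j : ℕ) {s : Equiv.Perm X} (hs : s ∈ P) :
    ∃ (q : Equiv.Perm (ZMod (j + 1))) (e : ℚ) (m : ZMod (j + 1) → ZMod (j + 1) → ℚ),
      e * e = 1 ∧ Aff j s q e m := by
  induction hs using Subgroup.closure_induction with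
  | mem s hs =>
    rcases hs with rfl | rfl | rfl | rfl
    · refine ⟨Equiv.neg _, 1, fun _ _ => 0, by norm_num, ?_⟩
      intro lam c x; simp [s1_apply]
    · refine ⟨Equiv.subLeft 1, 1, fun _ _ => 0, by norm_num, ?_⟩
      intro lam c x; simp [s2_apply]
    · refine ⟨1, -1, fun _ _ => 0, by norm_num, ?_⟩
      intro lam c x; simp [r_apply]
    · refine ⟨1, -1, fun c d => if d = c then 1 else 0, by norm_num, ?_⟩
      intro lam c x; simp [b_apply]; ring
  | one => exact ⟨1, 1, _, by norm_num, Aff.one j⟩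
  | mul s t _ _ h1 h2 =>
    obtain ⟨q, e, m, he, h⟩ := h1
    obtain ⟨q', e', m', he', h'⟩ := h2
    exact ⟨q * q', e * e', _, by rw [mul_mul_mul_comm, he, he', one_mul], h.mul h'⟩
  | inv s _ h1 =>
    obtain ⟨q, e, m, he, h⟩ := h1
    exact ⟨q⁻¹, e, _, he, h.inv he⟩

theorem Aff.pow {j : ℕ} {s : Equiv.Perm X} {q : Equiv.Perm (ZMod (j + 1))} {e : ℚ}
    {m : ZMod (j + 1) → ZMod (j + 1) → ℚ} (h : Aff j s q e m) (n : ℕ) :
    ∃ m', Aff j (s ^ n) (q ^ n) (e ^ n) m' := by
  induction n with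
  | zero => exact ⟨_, by simpa using Aff.one j⟩
  | succ n ih =>
    obtain ⟨m', h'⟩ := ih
    rw [pow_succ, pow_succ, pow_succ]
    exact ⟨_, h'.mul h⟩

/-- For each element of `P` and each `j`, a single linear condition on `lam` guarantees
a finite orbit at the base point of the block. -/
theorem exists_period (j : ℕ) {s : Equiv.Perm X} (hs : s ∈ P) :
    ∃ (N : ℕ) (v : ZMod (j + 1) → ℚ), 0 < N ∧ ∀ lam : ZMod (j + 1) → ℚ,
      ∑ d, v d * lam d = 0 → (s ^ N) ⟨⟨j, lam⟩, (0, 0)⟩ = ⟨⟨j, lam⟩, (0, 0)⟩ := by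
  obtain ⟨q, e, m, he, h⟩ := aff_of_mem j hs
  obtain ⟨m', h'⟩ := h.pow (2 * Fintype.card (Equiv.Perm (ZMod (j + 1))))
  refine ⟨2 * Fintype.card (Equiv.Perm (ZMod (j + 1))), m' 0,
    Nat.mul_pos (by norm_num) Fintype.card_pos, ?_⟩
  intro lam hlam
  rw [h', hlam]
  have hq : q ^ (2 * Fintype.card (Equiv.Perm (ZMod (j + 1)))) = 1 := by
    rw [mul_comm, pow_mul, pow_card_eq_one, one_pow]
  rw [hq]
  simp

/-- The evaluation subgroup at a point. -/
def K (x : X) : Subgroup G where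
  carrier := {g | g x = 1}
  one_mem' := rfl
  mul_mem' := fun {a b} ha hb => by
    show a x * b x = 1
    rw [show a x = 1 from ha, show b x = 1 from hb, one_mul]
  inv_mem' := fun {a} ha => by
    show (a x)⁻¹ = 1
    rw [show a x = 1 from ha, inv_one]

/-- The subgroup of functions that are trivial on the `s`-orbit of `x`. -/
def UU (s : Equiv.Perm X) (x : X) : Subgroup G where
  carrier := {g | ∀ z : ℤ, g ((s ^ z) x) = 1}
  one_mem' := fun _ => rfl
  mul_mem' := fun {a b} ha hb z => by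
    show a _ * b _ = 1
    rw [ha z, hb z, one_mul]
  inv_mem' := fun {a} ha z => by
    show (a _)⁻¹ = 1
    rw [ha z, inv_one]

theorem UU_le_K (s : Equiv.Perm X) (x : X) : (UU s x : Set G) ⊆ (K x : Set G) := by
  intro g hg
  have := hg 0
  rw [zpow_zero, Equiv.Perm.one_apply] at this
  exact this

theorem isOpen_UU {s : Equiv.Perm X} {x : X} {N : ℕ} (hN : 0 < N) (h : (s ^ N) x = x) :
    IsOpen (UU s x : Set G) := by
  have hfin : (Set.range (fun z : ℤ => (s ^ z) x)).Finite := by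
    apply Set.Finite.subset ((Finset.range N).finite_toSet.image (fun k : ℕ => (s ^ k) x))
    rintro _ ⟨z, rfl⟩
    refine ⟨(z % N).toNat, ?_, ?_⟩
    · have h1 : 0 ≤ z % N := Int.emod_nonneg _ (by exact_mod_cast hN.ne')
      have h2 : z % N < N := Int.emod_lt_of_pos _ (by exact_mod_cast hN)
      simp only [Finset.coe_range, Set.mem_Iio]
      omega
    · have h1 : 0 ≤ z % N := Int.emod_nonneg _ (by exact_mod_cast hN.ne')
      have h3 : ((z % N).toNat : ℤ) = z % N := Int.toNat_of_nonneg h1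
      have h4 : ∀ k : ℤ, (((s ^ N) ^ k : Equiv.Perm X)) x = x := by
        intro k
        exact Equiv.Perm.zpow_apply_eq_self_of_apply_eq_self h k
      show (s ^ (z % N).toNat) x = (s ^ z) x
      rw [← zpow_natCast, h3]
      conv_rhs => rw [← Int.emod_add_mul_ediv z N, zpow_add, Equiv.Perm.mul_apply,
        zpow_mul, zpow_natCast, h4]
  have : (UU s x : Set G) = ⋂ y ∈ Set.range (fun z : ℤ => (s ^ z) x), {g : G | g y = 1} := by
    ext g
    simp only [Set.mem_iInter, Set.mem_range]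
    constructor
    · rintro hg _ ⟨z, rfl⟩
      exact hg z
    · intro hg z
      exact hg _ ⟨z, rfl⟩
  rw [this]
  apply Set.Finite.isOpen_biInter hfin
  intro y _
  have h5 : IsOpen ((fun g : G => g y) ⁻¹' ({1} : Set (Multiplicative (ZMod 2)))) :=
    (isOpen_discrete ({1} : Set (Multiplicative (ZMod 2)))).preimage (continuous_apply y)
  exact h5

theorem Phi_UU (s t : Equiv.Perm X) (x : X) (ht : ∃ z : ℤ, t = s ^ z) :
    Set.image (⇑(Phi t)) (UU s x : Set G) = (UU s x : Set G) := by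
  obtain ⟨z, rfl⟩ := ht
  ext g
  constructor
  · rintro ⟨g, hg, rfl⟩ w
    rw [Phi_apply, ← zpow_neg, ← Equiv.Perm.mul_apply, ← zpow_add]
    exact hg _
  · intro hg
    refine ⟨Phi ((s ^ z)⁻¹) g, ?_, ?_⟩
    · intro w
      rw [Phi_apply, inv_inv, ← Equiv.Perm.mul_apply, ← zpow_add]
      exact hg _
    · rw [← MulAut.mul_apply, ← map_mul, mul_inv_cancel, map_one, MulAut.one_apply]

/-- The tidiness condition of the problem. -/
def Tidy (a : MulAut G) (U : Subgroup G) : Prop :=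
  (U : Set G) =
      (⋂ n : ℕ, Set.image (⇑(a ^ n)) (U : Set G)) *
        (⋂ n : ℕ, Set.image (⇑(a⁻¹ ^ n)) (U : Set G)) ∧
    IsClosed (⋃ m : ℕ, Set.image (⇑(a ^ m))
        (⋂ n : ℕ, Set.image (⇑(a ^ n)) (U : Set G)))

theorem tidy_of_inv {a : MulAut G} {U : Subgroup G}
    (h1 : ∀ n : ℕ, Set.image (⇑(a ^ n)) (U : Set G) = U)
    (h2 : ∀ n : ℕ, Set.image (⇑(a⁻¹ ^ n)) (U : Set G) = U)
    (hU : IsClosed (U : Set G)) : Tidy a U := by
  unfold Tidy
  simp only [h1, h2, Set.iInter_const, Set.iUnion_const]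
  exact ⟨by simp, hU⟩

theorem tidy_top (a : MulAut G) : Tidy a ⊤ := by
  apply tidy_of_inv
  · intro n; simp [Set.image_univ]
  · intro n; simp [Set.image_univ]
  · simp

theorem tidy_UU {s : Equiv.Perm X} {x : X} {N : ℕ} (hN : 0 < N) (h : (s ^ N) x = x) :
    Tidy (Phi s) (UU s x) := by
  apply tidy_of_inv
  · intro n
    rw [← map_pow]
    exact Phi_UU s _ x ⟨n, by simp⟩
  · intro n
    rw [← map_inv, ← map_pow]
    exact Phi_UU s _ x ⟨-n, by simp⟩
  · exact Subgroup.isClosed_of_isOpen _ (isOpen_UU hN h)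

/-- A subgroup tidy for an involution is invariant. -/
theorem inv_of_tidy {a : MulAut G} (ha : a * a = 1) {U : Subgroup G} (h : Tidy a U) {g : G}
    (hg : g ∈ U) : a g ∈ U := by
  have hai : a⁻¹ = a := inv_eq_of_mul_eq_one_left ha
  have h1 := h.1
  rw [hai] at h1
  have hg' : g ∈ (U : Set G) := hg
  rw [h1] at hg'
  obtain ⟨u, hu, v, hv, rfl⟩ := hg'
  have hu1 := Set.mem_iInter.mp hu 1
  have hv1 := Set.mem_iInter.mp hv 1
  rw [pow_one] at hu1 hv1
  obtain ⟨u', hu', rfl⟩ := hu1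
  obtain ⟨v', hv', rfl⟩ := hv1
  simp only [map_mul]
  have haa : ∀ w : G, a (a w) = w := by
    intro w
    rw [← MulAut.mul_apply, ha, MulAut.one_apply]
  rw [haa, haa]
  exact U.mul_mem hu' hv'

theorem inv_of_tidy_P {U : Subgroup G} (h : ∀ a ∈ H, Tidy a U) {s : Equiv.Perm X} (hs : s ∈ P) :
    ∀ g ∈ U, Phi s g ∈ U := by
  have hgen : ∀ t ∈ gens, ∀ g ∈ U, Phi t g ∈ U := by
    intro t ht g hg
    apply inv_of_tidy _ (h (Phi t) ⟨t, Subgroup.subset_closure ht, rfl⟩) hg
    rw [← map_mul, gens_invol ht, map_one]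
  have key : ∀ t ∈ P, (∀ g ∈ U, Phi t g ∈ U) ∧ (∀ g ∈ U, Phi t⁻¹ g ∈ U) := by
    intro t ht
    induction ht using Subgroup.closure_induction with
    | mem t ht =>
      refine ⟨hgen t ht, ?_⟩
      have : t⁻¹ = t := inv_eq_of_mul_eq_one_left (gens_invol ht)
      rw [this]
      exact hgen t ht
    | one => simp
    | mul t t' _ _ h1 h2 =>
      constructor
      · intro g hg
        rw [map_mul, MulAut.mul_apply]
        exact h1.1 _ (h2.1 _ hg)
      · intro g hg
        rw [mul_inv_rev, map_mul, MulAut.mul_apply]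
        exact h2.2 _ (h1.2 _ hg)
    | inv t _ h1 =>
      exact ⟨h1.2, by simpa using h1.1⟩
  exact (key s hs).1

/-- The transport element. -/
theorem s21_pow (i : Idx) (k : ℕ) (x : ℚ) (c : ZMod (i.1 + 1)) :
    ((s2 * s1) ^ k) (⟨i, (c, x)⟩ : X) = ⟨i, (k + c, x)⟩ := by
  induction k with
  | zero => simp
  | succ k ih =>
    rw [pow_succ', Equiv.Perm.mul_apply, ih, Equiv.Perm.mul_apply, s1_apply, s2_apply]
    congr 2
    push_cast
    ring

theorem br_apply (i : Idx) (x : ℚ) (c : ZMod (i.1 + 1)) :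
    (b * r) (⟨i, (c, x)⟩ : X) = ⟨i, (c, x + i.2 c)⟩ := by
  rw [Equiv.Perm.mul_apply, r_apply, b_apply]
  congr 2
  simp only
  ring

theorem br_pow (i : Idx) (n : ℕ) (x : ℚ) (c : ZMod (i.1 + 1)) :
    ((b * r) ^ n) (⟨i, (c, x)⟩ : X) = ⟨i, (c, x + n * i.2 c)⟩ := by
  induction n with
  | zero => simp
  | succ n ih =>
    rw [pow_succ', Equiv.Perm.mul_apply, ih, br_apply]
    congr 2
    push_cast
    ring

theorem exists_tau (i : Idx) (hi : i.2 ≠ 0) :
    ∃ y : ℕ → Equiv.Perm X, (∀ n, y n ∈ P) ∧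
      Function.Injective (fun n => y n (⟨i, (0, 0)⟩ : X)) := by
  obtain ⟨c, hc⟩ := Function.ne_iff.mp hi
  refine ⟨fun n => (b * r) ^ n * (s2 * s1) ^ c.val, ?_, ?_⟩
  · intro n
    have h1 : s1 ∈ P := Subgroup.subset_closure (by simp [gens])
    have h2 : s2 ∈ P := Subgroup.subset_closure (by simp [gens])
    have h3 : r ∈ P := Subgroup.subset_closure (by simp [gens])
    have h4 : b ∈ P := Subgroup.subset_closure (by simp [gens])
    exact P.mul_mem (P.pow_mem (P.mul_mem h4 h3) _) (P.pow_mem (P.mul_mem h2 h1) _)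
  · intro n n' h
    simp only [Equiv.Perm.mul_apply, s21_pow] at h
    rw [br_pow, br_pow] at h
    have h' := eq_of_heq (Sigma.mk.inj h).2
    have h'' := (Prod.mk.inj h').2
    simp only [ZMod.natCast_val, ZMod.cast_id', id_eq, add_zero, zero_add] at h''
    have hc' : i.2 c ≠ 0 := by simpa using hc
    have := mul_right_cancel₀ hc' h''
    exact_mod_cast this

/-- The nontrivial element of the group of order two. -/
def u0 : Multiplicative (ZMod 2) := Multiplicative.ofAdd 1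

theorem u0_ne : u0 ≠ 1 := by decide

theorem Phi_mulSingle (s : Equiv.Perm X) (x : X) :
    Phi s (Pi.mulSingle x u0) = Pi.mulSingle (s x) u0 := by
  ext1 y
  rw [Phi_apply]
  by_cases h : y = s x
  · subst h
    simp
  · rw [Pi.mulSingle_eq_of_ne h, Pi.mulSingle_eq_of_ne]
    intro h'
    apply h
    rw [← h']
    simp

/-- Every open subgroup tidy for `H` contains the delta function at the base point. -/
theorem single_mem {U : Subgroup G} (hU : IsOpen (U : Set G)) (h : ∀ a ∈ H, Tidy a U)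
    (i : Idx) (hi : i.2 ≠ 0) : (Pi.mulSingle (⟨i, (0, 0)⟩ : X) u0 : G) ∈ U := by
  obtain ⟨I, u, hu, hsub⟩ := isOpen_pi_iff.mp hU 1 U.one_mem
  obtain ⟨y, hyP, hinj⟩ := exists_tau i hi
  obtain ⟨_, ⟨n, rfl⟩, hn⟩ := (Set.infinite_range_of_injective hinj).exists_notMem_finset I
  have h1 : (Pi.mulSingle (y n ⟨i, (0, 0)⟩) u0 : G) ∈ U := by
    apply hsub
    intro z hz
    have hz' : z ≠ y n ⟨i, (0, 0)⟩ := by
      rintro rfl
      exact hn hz
    rw [Pi.mulSingle_eq_of_ne hz']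
    exact (hu z hz).2
  have h2 := inv_of_tidy_P h (P.inv_mem (hyP n)) _ h1
  rw [Phi_mulSingle] at h2
  simpa using h2

end Pool.Agent.Helper8.NubCounter
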