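import Mathlib
import Pool.Agent.Helper8.NubChar

set_option autoImplicit false
set_option linter.unusedSectionVars false
open scoped Pointwise

namespace Pool.Agent.Helper8.NubPerm

open Pool.Agent.Helper8.NubChar

section perm

variable {X : Type}

/-- Permutations of `X` act on the compact group of functions from `X` to a group of order 2. -/
def Phi : Equiv.Perm X →* MulAut (X → Multiplicative (ZMod 2)) where
  toFun s :=
    { toFun := fun g x => g (s⁻¹ x)
      invFun := fun g x => g (s x)
      left_inv := fun g => by ext x; simp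
      right_inv := fun g => by ext x; simp
      map_mul' := fun g h => rfl }
  map_one' := by ext g x; rfl
  map_mul' := fun s t => by ext g x; simp [mul_inv_rev]

theorem Phi_apply (s : Equiv.Perm X) (g : X → Multiplicative (ZMod 2)) (x : X) :
    Phi s g x = g (s⁻¹ x) := rfl

/-- The evaluation subgroup at a point. -/
def K (x : X) : Subgroup (X → Multiplicative (ZMod 2)) where
  carrier := {g | g x = 1}
  one_mem' := rfl
  mul_mem' := fun {a b} ha hb => by
    show a x * b x = 1
    rw [show a x = 1 from ha, show b x = 1 from hb, one_mul]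
  inv_mem' := fun {a} ha => by
    show (a x)⁻¹ = 1
    rw [show a x = 1 from ha, inv_one]

/-- The subgroup of functions that are trivial on the `s`-orbit of `x`. -/
def UU (s : Equiv.Perm X) (x : X) : Subgroup (X → Multiplicative (ZMod 2)) where
  carrier := {g | ∀ z : ℤ, g ((s ^ z) x) = 1}
  one_mem' := fun _ => rfl
  mul_mem' := fun {a b} ha hb z => by
    show a _ * b _ = 1
    rw [ha z, hb z, one_mul]
  inv_mem' := fun {a} ha z => by
    show (a _)⁻¹ = 1
    rw [ha z, inv_one]

theorem UU_le_K (s : Equiv.Perm X) (x : X) : UU s x ≤ K x := by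
  intro g hg
  have := hg 0
  rw [zpow_zero, Equiv.Perm.one_apply] at this
  exact this

theorem isOpen_UU {s : Equiv.Perm X} {x : X} {N : ℕ} (hN : 0 < N) (h : (s ^ N) x = x) :
    IsOpen (UU s x : Set (X → Multiplicative (ZMod 2))) := by
  have hfin : (Set.range (fun z : ℤ => (s ^ z) x)).Finite := by
    apply Set.Finite.subset ((Finset.range N).finite_toSet.image (fun k : ℕ => (s ^ k) x))
    rintro _ ⟨z, rfl⟩
    refine ⟨(z % N).toNat, ?_, ?_⟩
    · have h1 : 0 ≤ z % N := Int.emod_nonneg _ (by exact_mod_cast hN.ne')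
      have h2 : z % N < N := Int.emod_lt_of_pos _ (by exact_mod_cast hN)
      simp only [Finset.coe_range, Set.mem_Iio]
      omega
    · have h1 : 0 ≤ z % N := Int.emod_nonneg _ (by exact_mod_cast hN.ne')
      have h3 : ((z % N).toNat : ℤ) = z % N := Int.toNat_of_nonneg h1
      have h4 : ∀ k : ℤ, (((s ^ N) ^ k : Equiv.Perm X)) x = x := by
        intro k
        exact Equiv.Perm.zpow_apply_eq_self_of_apply_eq_self h k
      show (s ^ (z % N).toNat) x = (s ^ z) x
      rw [← zpow_natCast, h3]
      conv_rhs => rw [← Int.emod_add_mul_ediv z N, zpow_add, Equiv.Perm.mul_apply,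
        zpow_mul, zpow_natCast, h4]
  have : (UU s x : Set (X → Multiplicative (ZMod 2))) =
      ⋂ y ∈ Set.range (fun z : ℤ => (s ^ z) x),
        {g : X → Multiplicative (ZMod 2) | g y = 1} := by
    ext g
    simp only [Set.mem_iInter, Set.mem_range]
    constructor
    · rintro hg _ ⟨z, rfl⟩
      exact hg z
    · intro hg z
      exact hg _ ⟨z, rfl⟩
  rw [this]
  apply Set.Finite.isOpen_biInter hfin
  intro y _
  have h5 : IsOpen ((fun g : X → Multiplicative (ZMod 2) => g y) ⁻¹'
      ({1} : Set (Multiplicative (ZMod 2)))) :=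
    (isOpen_discrete ({1} : Set (Multiplicative (ZMod 2)))).preimage (continuous_apply y)
  exact h5

theorem smul_UU (s : Equiv.Perm X) (x : X) : Phi s • UU s x = UU s x := by
  ext g
  rw [mem_smul']
  have h1 : ∀ z : ℤ, ((Phi s)⁻¹ g) ((s ^ z) x) = g ((s ^ (z + 1)) x) := by
    intro z
    rw [← map_inv, Phi_apply, inv_inv, ← Equiv.Perm.mul_apply, add_comm, zpow_one_add]
  constructor
  · intro hg z
    have := hg (z - 1)
    rw [h1] at this
    simpa using this
  · intro hg z
    rw [h1]
    exact hg _

theorem nub_subset_K {s : Equiv.Perm X} {x : X} {N : ℕ} (hN : 0 < N) (h : (s ^ N) x = x) :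
    core {Phi s} ≤ K x := by
  intro g hg
  apply UU_le_K s x
  rw [mem_core] at hg
  apply hg _ (isOpen_UU hN h)
  rintro _ rfl
  exact smul_UU s x

/-- The nontrivial element of the group of order two. -/
def u0 : Multiplicative (ZMod 2) := Multiplicative.ofAdd 1

theorem u0_ne : u0 ≠ 1 := by decide

theorem notMem_K [DecidableEq X] (x : X) :
    (Pi.mulSingle x u0 : X → Multiplicative (ZMod 2)) ∉ K x := by
  intro h
  change _ = _ at h
  rw [Pi.mulSingle_eq_same] at h
  exact u0_ne h

open Classical in
theorem Phi_mulSingle (s : Equiv.Perm X) (x : X) :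
    Phi s (Pi.mulSingle x u0) = Pi.mulSingle (s x) u0 := by
  ext1 y
  rw [Phi_apply]
  by_cases h : y = s x
  · subst h
    simp
  · rw [Pi.mulSingle_eq_of_ne h, Pi.mulSingle_eq_of_ne]
    intro h'
    apply h
    rw [← h']
    simp

open Classical in
theorem single_mem {T : Set (Equiv.Perm X)} (x : X)
    (hinf : (Set.image (fun s : Equiv.Perm X => s x) T).Infinite) :
    (Pi.mulSingle x u0 : X → Multiplicative (ZMod 2)) ∈ core (Phi '' T) := by
  rw [mem_core]
  intro U hU hfix
  obtain ⟨I, u, hu, hsub⟩ := isOpen_pi_iff.mp hU 1 U.one_mem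
  obtain ⟨_, ⟨s, hs, rfl⟩, hn⟩ := hinf.exists_notMem_finset I
  have h1 : (Pi.mulSingle (s x) u0 : X → Multiplicative (ZMod 2)) ∈ U := by
    apply hsub
    intro z hz
    have hz' : z ≠ s x := by
      rintro rfl
      exact hn hz
    rw [Pi.mulSingle_eq_of_ne hz']
    exact (hu z hz).2
  rw [← Phi_mulSingle, ← hfix (Phi s) ⟨s, hs, rfl⟩, mem_smul'] at h1
  rw [← MulAut.mul_apply, inv_mul_cancel, MulAut.one_apply] at h1
  exact h1

end perm

end Pool.Agent.Helper8.NubPerm
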